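import Pool.Agent.Helper62K2.Space

/-!
# The space is paralindelöf
-/

set_option autoImplicit false

open Set Function Topology

namespace Pool.Agent.Helper62K2

variable {K Z : Type} {c : Z → ℕ → K × (ℕ → Z)}

/-- A family of subsets is locally countable. -/
def LC {X : Type} [TopologicalSpace X] (𝒱 : Set (Set X)) : Prop :=
  ∀ x : X, ∃ N ∈ 𝓝 x, {V ∈ 𝒱 | (V ∩ N).Nonempty}.Countable

/-- A space is paralindelöf. -/
def PL (X : Type) [TopologicalSpace X] : Prop :=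
  ∀ 𝒰 : Set (Set X), (∀ U ∈ 𝒰, IsOpen U) → ⋃₀ 𝒰 = univ →
    ∃ 𝒱 : Set (Set X), (∀ V ∈ 𝒱, IsOpen V) ∧ ⋃₀ 𝒱 = univ ∧ (∀ V ∈ 𝒱, ∃ U ∈ 𝒰, V ⊆ U) ∧
      LC 𝒱

theorem paralindelof_Pt : PL (Pt c) := by
  classical
  intro 𝒰 hU hcov
  have hmem : ∀ q : Pt c, ∃ U ∈ 𝒰, q ∈ U := fun q =>
    mem_sUnion.1 (hcov ▸ mem_univ q : q ∈ ⋃₀ 𝒰)
  obtain ⟨k, hk, hkc⟩ := exists_level
    (fun n (d : K × (ℕ → Z)) => ∃ U ∈ 𝒰, ∀ d', Eqv n d d' → Pt.lim d' ∈ U) (by
      intro d
      obtain ⟨U, hU', hd⟩ := hmem (Pt.lim d)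
      obtain ⟨n, hn⟩ := exists_eqv_sub (hU U hU') hd
      exact ⟨n, U, hU', hn⟩) (by
      rintro n d d' h ⟨U, hU', h1⟩
      exact ⟨U, hU', fun d'' h2 => h1 d'' (h.trans h2)⟩)
  let bl : (K × (ℕ → Z)) → CO K Z := fun d => blk (k d) d
  have hbl : ∀ d d', Eqv (k d) d d' → bl d' = bl d := by
    intro d d' h
    apply Subtype.ext
    ext e
    show Eqv (k d') d' e ↔ Eqv (k d) d e
    rw [hkc d d' h]
    exact ⟨fun h' => h.trans h', fun h' => h.symm.trans h'⟩
  let g : CO K Z → Set (Pt c) := fun B =>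
    if h : ∃ U ∈ 𝒰, ∀ d' ∈ B.1, Pt.lim d' ∈ U then h.choose else ∅
  have hg : ∀ d, g (bl d) ∈ 𝒰 ∧ ∀ d' ∈ (bl d).1, Pt.lim d' ∈ g (bl d) := by
    intro d
    have h : ∃ U ∈ 𝒰, ∀ d' ∈ (bl d).1, Pt.lim d' ∈ U := hk d
    have h1 : g (bl d) = h.choose := dif_pos h
    rw [h1]
    exact h.choose_spec
  let A : ℕ → CO K Z := fun n => ⟨{d | k d = n}, fun d => ⟨k d, fun d' h => by
    show k d' = n ↔ k d = n
    rw [hkc d d' h]⟩⟩
  have hopen : ∀ d, ∃ n, ∃ H : Set (CO K Z), H.Finite ∧ Nb c n H d ⊆ g (bl d) := fun d =>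
    hU _ (hg d).1 d ((hg d).2 d (Eqv.refl _ _))
  choose m H hHf hH using hopen
  let O : (K × (ℕ → Z)) → Set (Pt c) := fun d =>
    Nb c (max (m d) (k d + 1)) (H d ∪ A '' Iic (k d)) d
  have hOo : ∀ d, IsOpen (O d) := fun d =>
    isOpen_Nb _ ((hHf d).union ((finite_Iic _).image _)) d
  have hOg : ∀ d, O d ⊆ g (bl d) := fun d =>
    (Nb_mono (le_max_left _ _) subset_union_left d).trans (hH d)
  have hOk : ∀ d, O d ⊆ Nb c (k d + 1) (A '' Iic (k d)) d := fun d =>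
    Nb_mono (le_max_right _ _) subset_union_right d
  have hOself : ∀ d, Pt.lim d ∈ O d := fun d => self_mem_Nb _ _ _
  let OB : CO K Z → Set (Pt c) := fun B => ⋃ d ∈ {d | bl d = B}, O d
  -- the main point
  have main : ∀ d e : K × (ℕ → Z), (O d ∩ O e).Nonempty →
      bl e = bl d ∨ ∃ i, bl e = bl (c (d.2 (k d)) i) := by
    rintro d e ⟨d' | p, hd, he⟩
    · have h1 := (hOk d hd).1
      have h2 := (hOk e he).1
      exact Or.inl ((hbl e d' (h2.mono (Nat.le_succ _))).symm.trans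
        (hbl d d' (h1.mono (Nat.le_succ _))))
    · obtain ⟨h1, h2, h3⟩ := hOk d hd
      obtain ⟨h1', h2', h3'⟩ := hOk e he
      have hkk : k e = k d := by
        rcases lt_trichotomy (k e) (k d) with hlt | heq | hgt
        · have h4 : A (k e) ∈ p.Φ := (h3' _ ⟨k e, le_refl (k e), rfl⟩).2 (show k e = k e from rfl)
          exact absurd ((h3 _ ⟨k e, hlt.le, rfl⟩).1 h4) (fun h5 => hlt.ne' h5)
        · exact heq
        · have h4 : A (k d) ∈ p.Φ := (h3 _ ⟨k d, le_refl (k d), rfl⟩).2 (show k d = k d from rfl)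
          exact absurd ((h3' _ ⟨k d, hgt.le, rfl⟩).1 h4) (fun h5 => hgt.ne' h5)
      have hm := p.ment (k d) (by omega)
      rcases h1 with h1 | h1 <;> rcases h1' with h1' | h1'
      · left
        exact (hbl e p.x (h1'.mono (Nat.le_succ _))).symm.trans
          (hbl d p.x (h1.mono (Nat.le_succ _)))
      · right
        obtain ⟨i, hi1, hi2⟩ := hm.1
        rw [← h1.2 (k d) (Nat.lt_succ_self _)] at hi1 hi2
        refine ⟨i, (hbl e _ ?_).symm⟩
        have h5 : Eqv (k d) (c (d.2 (k d)) i) p.y := ⟨hi1, hi2⟩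
        rw [hkk]
        rw [hkk] at h1'
        exact (h1'.mono (Nat.le_succ _)).trans h5.symm
      · right
        obtain ⟨i, hi1, hi2⟩ := hm.2
        rw [← h1.2 (k d) (Nat.lt_succ_self _)] at hi1 hi2
        refine ⟨i, (hbl e _ ?_).symm⟩
        have h5 : Eqv (k d) (c (d.2 (k d)) i) p.x := ⟨hi1, hi2⟩
        rw [hkk]
        rw [hkk] at h1'
        exact (h1'.mono (Nat.le_succ _)).trans h5.symm
      · left
        exact (hbl e p.y (h1'.mono (Nat.le_succ _))).symm.trans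
          (hbl d p.y (h1.mono (Nat.le_succ _)))
  refine ⟨range (fun d => OB (bl d)) ∪ {S | ∃ p, S = {Pt.iso p} ∧ ∀ d, Pt.iso p ∉ O d},
    ?_, ?_, ?_, ?_⟩
  · rintro _ (⟨d, rfl⟩ | ⟨p, rfl, _⟩)
    · exact isOpen_biUnion fun d _ => hOo d
    · exact isOpen_single p
  · refine eq_univ_of_forall fun q => ?_
    by_cases hq : ∃ d, q ∈ O d
    · obtain ⟨d, hd⟩ := hq
      exact mem_sUnion.2 ⟨OB (bl d), Or.inl ⟨d, rfl⟩, mem_iUnion₂.2 ⟨d, rfl, hd⟩⟩
    · push Not at hq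
      rcases q with d | p
      · exact absurd (hOself d) (hq d)
      · exact mem_sUnion.2 ⟨{Pt.iso p}, Or.inr ⟨p, rfl, hq⟩, rfl⟩
  · rintro _ (⟨d, rfl⟩ | ⟨p, rfl, _⟩)
    · refine ⟨g (bl d), (hg d).1, ?_⟩
      refine iUnion₂_subset fun e he => ?_
      have he' : bl e = bl d := he
      rw [← he']
      exact hOg e
    · obtain ⟨U, hU', hp⟩ := hmem (Pt.iso p)
      exact ⟨U, hU', singleton_subset_iff.2 hp⟩
  · rintro (d | p)
    · refine ⟨O d, (hOo d).mem_nhds (hOself d), ?_⟩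
      refine ((countable_singleton (OB (bl d))).union
        (countable_range (fun i => OB (bl (c (d.2 (k d)) i))))).mono ?_
      rintro _ ⟨⟨e', rfl⟩ | ⟨p, rfl, hp⟩, q, hq, hqd⟩
      · obtain ⟨e, he, hqe⟩ := mem_iUnion₂.1 hq
        have he' : bl e = bl e' := he
        rcases main d e ⟨q, hqd, hqe⟩ with h | ⟨i, h⟩
        · left
          show OB (bl e') = OB (bl d)
          rw [← he', h]
        · right
          refine ⟨i, ?_⟩
          show OB (bl (c (d.2 (k d)) i)) = OB (bl e')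
          rw [← he', h]
      · rw [mem_singleton_iff.1 hq] at hqd
        exact absurd hqd (hp d)
    · refine ⟨{Pt.iso p}, (isOpen_single p).mem_nhds rfl, ?_⟩
      refine (((finite_singleton ({Pt.iso p} : Set (Pt c))).insert (OB (bl p.y))).insert
        (OB (bl p.x))).countable.mono ?_
      rintro _ ⟨⟨e', rfl⟩ | ⟨p', rfl, hp⟩, q, hq, hqd⟩
      · obtain ⟨e, he, hqe⟩ := mem_iUnion₂.1 hq
        have he' : bl e = bl e' := he
        rw [mem_singleton_iff.1 hqd] at hqe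
        rcases (hOk e hqe).1 with h | h
        · left
          show OB (bl e') = OB (bl p.x)
          rw [← he', hbl e _ (h.mono (Nat.le_succ _))]
        · right; left
          show OB (bl e') = OB (bl p.y)
          rw [← he', hbl e _ (h.mono (Nat.le_succ _))]
      · right; right
        have h1 := mem_singleton_iff.1 hq
        have h2 := mem_singleton_iff.1 hqd
        rw [h1] at h2
        show ({Pt.iso p'} : Set (Pt c)) = {Pt.iso p}
        rw [h2]

end Pool.Agent.Helper62K2
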