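import Mathlib

/-!
# Roots of families of finite sets, and fusion along a countably directed set

Combinatorial part of a construction of a normal paralindelöf space that is not collectionwise
normal.
-/

set_option autoImplicit false

open Set Function

namespace Pool.Agent.Helper62K2

/-- A notion of a large set that is stable under countable unions in the sense that one piece of a
countable partition of a large set is large. -/
structure BigNotion (α : Type*) where
  big : (α → Prop) → Prop
  mono : ∀ {P Q : α → Prop}, (∀ a, P a → Q a) → big P → big Q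
  exists_of_big : ∀ {P : α → Prop}, big P → ∃ a, P a
  cunion : ∀ {P : ℕ → α → Prop}, big (fun a => ∃ i, P i a) → ∃ i, big (P i)

namespace BigNotion

variable {α : Type*} (B : BigNotion α)

theorem or {P Q : α → Prop} (h : B.big (fun a => P a ∨ Q a)) : B.big P ∨ B.big Q := by
  have h1 : B.big (fun a => ∃ i : ℕ, (if i = 0 then P a else Q a)) := by
    refine B.mono ?_ h
    rintro a (ha | ha)
    · exact ⟨0, by simpa using ha⟩
    · exact ⟨1, by simpa using ha⟩
  obtain ⟨i, hi⟩ := B.cunion h1
  by_cases h0 : i = 0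
  · left
    refine B.mono (fun a ha => ?_) hi
    simpa [h0] using ha
  · right
    refine B.mono (fun a ha => ?_) hi
    simpa [h0] using ha

theorem finset_split {T : Type*} [DecidableEq T] (r : α → Finset T) (r0 : Finset T)
    {P : α → Prop} (hP : B.big P) (G : Finset T) :
    B.big (fun a => P a ∧ ∀ t ∈ G, t ∉ r0 → t ∉ r a) ∨
      ∃ t ∈ G, t ∉ r0 ∧ B.big (fun a => P a ∧ t ∈ r a) := by
  induction G using Finset.induction_on with
  | empty =>
    left
    refine B.mono (fun a ha => ⟨ha, ?_⟩) hP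
    simp
  | insert t G _ ih =>
    rcases ih with ih | ⟨t', ht', h1, h2⟩
    · by_cases ht : t ∈ r0
      · left
        refine B.mono (fun a ha => ⟨ha.1, ?_⟩) ih
        intro u hu hu0
        rcases Finset.mem_insert.1 hu with rfl | hu
        · exact absurd ht hu0
        · exact ha.2 u hu hu0
      · have h3 : B.big (fun a => (P a ∧ ∀ u ∈ insert t G, u ∉ r0 → u ∉ r a) ∨
            (P a ∧ t ∈ r a)) := by
          refine B.mono (fun a ha => ?_) ih
          by_cases hta : t ∈ r a
          · exact Or.inr ⟨ha.1, hta⟩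
          · left
            refine ⟨ha.1, ?_⟩
            intro u hu hu0
            rcases Finset.mem_insert.1 hu with rfl | hu
            · exact hta
            · exact ha.2 u hu hu0
        rcases B.or h3 with h4 | h4
        · exact Or.inl h4
        · exact Or.inr ⟨t, Finset.mem_insert_self _ _, ht, h4⟩
    · exact Or.inr ⟨t', Finset.mem_insert_of_mem ht', h1, h2⟩

/-- The root lemma. -/
theorem root {T : Type*} [DecidableEq T] (r : α → Finset T) {P : α → Prop} (hP : B.big P) :
    ∃ r0 : Finset T, ∀ G : Finset T, B.big (fun a => P a ∧ r0 ⊆ r a ∧ r a ∩ G ⊆ r0) := by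
  obtain ⟨k, hk⟩ := B.cunion (P := fun k a => P a ∧ (r a).card = k)
    (B.mono (fun a ha => ⟨(r a).card, ha, rfl⟩) hP)
  -- sizes of sets contained in many `r a`
  let S : Set ℕ := {m | ∃ r0 : Finset T, r0.card = m ∧ B.big (fun a => (P a ∧ (r a).card = k) ∧
    r0 ⊆ r a)}
  have hS0 : (0 : ℕ) ∈ S := ⟨∅, rfl, B.mono (fun a ha => ⟨ha, by simp⟩) hk⟩
  have hSb : ∀ m ∈ S, m ≤ k := by
    rintro m ⟨r0, rfl, hr0⟩
    obtain ⟨a, ⟨_, ha⟩, hsub⟩ := B.exists_of_big hr0
    exact ha ▸ Finset.card_le_card hsub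
  have hbdd : BddAbove S := ⟨k, fun m hm => hSb m hm⟩
  obtain ⟨r0, hr0, hbig⟩ := Nat.sSup_mem ⟨0, hS0⟩ hbdd
  refine ⟨r0, fun G => ?_⟩
  rcases B.finset_split r r0 hbig G with h | ⟨t, _, ht0, ht⟩
  · refine B.mono ?_ h
    rintro a ⟨⟨⟨h1, _⟩, h2⟩, h3⟩
    refine ⟨h1, h2, ?_⟩
    intro t ht
    obtain ⟨ht1, ht2⟩ := Finset.mem_inter.1 ht
    by_contra hc
    exact h3 t ht2 hc ht1
  · exfalso
    have h1 : (insert t r0).card ∈ S := by
      refine ⟨insert t r0, rfl, B.mono ?_ ht⟩
      rintro a ⟨⟨h1, h2⟩, h3⟩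
      refine ⟨h1, ?_⟩
      intro u hu
      rcases Finset.mem_insert.1 hu with rfl | hu
      · exact h3
      · exact h2 hu
    have h2 := le_csSup hbdd h1
    rw [Finset.card_insert_of_notMem ht0, hr0] at h2
    omega

/-- Uncountable sets form a notion of largeness. -/
def uncountable (α : Type*) : BigNotion α where
  big P := ¬ {a | P a}.Countable
  mono := fun h h1 h2 => h1 (h2.mono fun a ha => h a ha)
  exists_of_big := fun {P} h => by
    by_contra hc
    push Not at hc
    apply h
    have : {a | P a} = ∅ := by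
      ext a
      simp [hc a]
    rw [this]
    exact countable_empty
  cunion := fun {P} h => by
    by_contra hc
    push Not at hc
    apply h
    have : {a | ∃ i, P i a} = ⋃ i, {a | P i a} := by
      ext a
      simp
    rw [this]
    exact countable_iUnion hc

end BigNotion

section Cof

variable {D Z : Type*} (c : Z → ℕ → D)

/-- `P` holds for cofinally many `z`, where `z` is regarded as the countable set `range (c z)`. -/
def Cof (P : Z → Prop) : Prop := ∀ e : ℕ → D, ∃ z, range e ⊆ range (c z) ∧ P z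

/-- Cofinal sets form a notion of largeness. -/
def cofBig [Nonempty D] : BigNotion Z where
  big := Cof c
  mono := fun h h1 e => by
    obtain ⟨z, hz, hP⟩ := h1 e
    exact ⟨z, hz, h z hP⟩
  exists_of_big := fun h => by
    obtain ⟨z, _, hz⟩ := h (fun _ => Classical.arbitrary D)
    exact ⟨z, hz⟩
  cunion := fun {P} h => by
    by_contra hc
    simp only [Cof] at hc
    push Not at hc
    choose e he using hc
    obtain ⟨z, hz, i, hi⟩ := h (fun n => e n.unpair.1 n.unpair.2)
    refine he i z ?_ hi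
    rintro _ ⟨k, rfl⟩
    apply hz
    exact ⟨Nat.pair i k, by simp⟩

end Cof

section Ext

variable {K Z T : Type*} [DecidableEq T] (c : Z → ℕ → K × (ℕ → Z))

/-- `Ext c nb h j i s r` means: the finite sequence `s 0, …, s (i - 1)` can be extended in cofinally
many ways, `j` times, to the first `i + j` terms of a sequence `b` with `nb b = i + j`, where the
finite sets `h b` are organised with roots, the first one being `r`. -/
def Ext (nb : (ℕ → Z) → ℕ) (h : (ℕ → Z) → Finset T) : ℕ → ℕ → (ℕ → Z) → Finset T → Prop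
  | 0, i, s, r => ∃ b : ℕ → Z, (∀ l < i, b l = s l) ∧ nb b = i ∧ h b = r
  | j + 1, i, s, r => ∀ G : Finset T, Cof c (fun z => ∃ r' : Finset T,
      Ext nb h j (i + 1) (update s i z) r' ∧ r ⊆ r' ∧ r' ∩ G ⊆ r)

variable {c} {nb : (ℕ → Z) → ℕ} {h : (ℕ → Z) → Finset T}

theorem Ext.exists_sub [Nonempty K] [Nonempty Z] :
    ∀ {j i : ℕ} {s : ℕ → Z} {r : Finset T}, Ext c nb h j i s r → ∃ b, r ⊆ h b
  | 0, _, _, _, ⟨b, _, _, hb⟩ => ⟨b, hb ▸ Finset.Subset.refl _⟩
  | j + 1, i, s, r, he => by
    obtain ⟨z, _, r', h1, h2, _⟩ := he ∅ (fun _ => Classical.arbitrary _)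
    obtain ⟨b, hb⟩ := Ext.exists_sub h1
    exact ⟨b, h2.trans hb⟩

theorem exists_ext_step [Nonempty K] [Nonempty Z] (hc : Surjective c) (i : ℕ) (s : ℕ → Z)
    (hs : ∀ j, ¬ ∃ r, Ext c nb h j i s r) :
    ∃ z, ∀ j, ¬ ∃ r, Ext c nb h j (i + 1) (update s i z) r := by
  by_contra hcon
  push Not at hcon
  have h1 : (cofBig c).big (fun z => ∃ j : ℕ, ∃ r, Ext c nb h j (i + 1) (update s i z) r) := by
    intro e
    obtain ⟨z, hz⟩ := hc e
    exact ⟨z, by rw [hz], hcon z⟩
  obtain ⟨j, hj⟩ := (cofBig c).cunion h1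
  classical
  let r : Z → Finset T := fun z =>
    if hz : ∃ r, Ext c nb h j (i + 1) (update s i z) r then hz.choose else ∅
  obtain ⟨r0, hr0⟩ := (cofBig c).root r hj
  apply hs (j + 1)
  refine ⟨r0, fun G => ?_⟩
  refine (cofBig c).mono ?_ (hr0 G)
  rintro z ⟨hz, h2, h3⟩
  refine ⟨r z, ?_, h2, h3⟩
  have : r z = hz.choose := dif_pos hz
  rw [this]
  exact hz.choose_spec

theorem exists_ext [Nonempty K] [Nonempty Z] (hc : Surjective c) (s : ℕ → Z) :
    ∃ n r, Ext c nb h n 0 s r := by
  by_contra hcon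
  push Not at hcon
  have h0 : ∀ j, ¬ ∃ r, Ext c nb h j 0 s r := by
    intro j
    push Not
    exact hcon j
  choose! g hg using fun i s => exists_ext_step (c := c) (nb := nb) (h := h) hc i s
  let S : ℕ → (ℕ → Z) := fun n => Nat.rec s (fun i t => update t i (g i t)) n
  have hS : ∀ i, S (i + 1) = update (S i) i (g i (S i)) := fun i => rfl
  have hbad : ∀ i, ∀ j, ¬ ∃ r, Ext c nb h j i (S i) r := by
    intro i
    induction i with
    | zero => exact h0
    | succ i ih =>
      rw [hS]
      exact hg i (S i) ih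
  let b : ℕ → Z := fun l => S (l + 1) l
  have hb : ∀ i, ∀ l < i, S i l = b l := by
    intro i
    induction i with
    | zero => intro l hl; omega
    | succ i ih =>
      intro l hl
      rcases Nat.lt_succ_iff_lt_or_eq.1 hl with h1 | rfl
      · rw [hS, update_of_ne (by omega)]
        exact ih l h1
      · rfl
  exact hbad (nb b) 0 ⟨h b, b, fun l hl => (hb _ l hl).symm, rfl, rfl⟩

end Ext

section Pair

variable {K Z A : Type*} (c : Z → ℕ → K × (ℕ → Z))

/-- `z` mentions the node `(q.1, q.2 restricted to l)`. -/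
def Ment (l : ℕ) (z : Z) (q : K × (ℕ → Z)) : Prop :=
  ∃ k, (c z k).1 = q.1 ∧ ∀ m < l, (c z k).2 m = q.2 m

/-- Two finite partial functions are compatible. -/
def Comp (r r' : Finset (A × Bool)) : Prop := ∀ a x y, (a, x) ∈ r → (a, y) ∈ r' → x = y

theorem Comp.symm {r r' : Finset (A × Bool)} (h : Comp r r') : Comp r' r :=
  fun a x y h1 h2 => (h a y x h2 h1).symm

/-- The set of all pairs whose first coordinate is in the domain of `r`. -/
def dbl [DecidableEq (A × Bool)] (r : Finset (A × Bool)) : Finset (A × Bool) :=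
  r ∪ r.image (fun t => (t.1, !t.2))

theorem mem_dbl [DecidableEq (A × Bool)] {r : Finset (A × Bool)} {a : A} {x : Bool}
    (h : (a, x) ∈ r) (y : Bool) : (a, y) ∈ dbl r := by
  unfold dbl
  by_cases hxy : x = y
  · subst hxy
    exact Finset.mem_union_left _ h
  · refine Finset.mem_union_right _ (Finset.mem_image.2 ⟨(a, x), h, ?_⟩)
    have : (!x) = y := by
      cases x <;> cases y <;> simp_all
    simp [this]

theorem Comp.of_root [DecidableEq (A × Bool)] {r r' r1 : Finset (A × Bool)} (h : Comp r r')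
    (h2 : r1 ∩ dbl r' ⊆ r) : Comp r1 r' := by
  intro a x y hx hy
  exact h a x y (h2 (Finset.mem_inter.2 ⟨hx, mem_dbl hy x⟩)) hy

variable {c}

theorem exists_pair [DecidableEq (A × Bool)] {α β : K} {nb nb' : (ℕ → Z) → ℕ}
    {h h' : (ℕ → Z) → Finset (A × Bool)} :
    ∀ (j i : ℕ) (s t : ℕ → Z) (r r' : Finset (A × Bool)), Ext c nb h j i s r →
      Ext c nb' h' j i t r' → Comp r r' →
      (∀ l < i, Ment c l (s l) (β, t) ∧ Ment c l (t l) (α, s)) →
      ∃ b b' : ℕ → Z, nb b = i + j ∧ nb' b' = i + j ∧ Comp (h b) (h' b') ∧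
        ∀ l < i + j, Ment c l (b l) (β, b') ∧ Ment c l (b' l) (α, b) := by
  intro j
  induction j with
  | zero =>
    rintro i s t r r' ⟨b, hb1, hb2, rfl⟩ ⟨b', hb1', hb2', rfl⟩ hcomp hm
    refine ⟨b, b', hb2, hb2', hcomp, ?_⟩
    intro l hl
    obtain ⟨⟨k, hk1, hk2⟩, ⟨k', hk1', hk2'⟩⟩ := hm l hl
    have hl' : l < i := hl
    rw [hb1 l hl', hb1' l hl']
    refine ⟨⟨k, hk1, fun m hm' => ?_⟩, ⟨k', hk1', fun m hm' => ?_⟩⟩
    · exact (hk2 m hm').trans (hb1' m (by omega)).symm
    · exact (hk2' m hm').trans (hb1 m (by omega)).symm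
  | succ j ih =>
    intro i s t r r' he he' hcomp hm
    obtain ⟨z, hz, r1, h1, h2, h3⟩ := he (dbl r') (fun _ => (β, t))
    have hc1 : Comp r1 r' := hcomp.of_root h3
    obtain ⟨z', hz', r1', h1', h2', h3'⟩ := he' (dbl r1) (fun _ => (α, s))
    have hc2 : Comp r1' r1 := hc1.symm.of_root h3'
    obtain ⟨b, b', k1, k2, k3, k4⟩ := ih (i + 1) (update s i z) (update t i z') r1 r1' h1 h1'
      hc2.symm (by
        intro l hl
        rcases Nat.lt_succ_iff_lt_or_eq.1 hl with hl' | rfl
        · obtain ⟨⟨k, hk1, hk2⟩, ⟨k', hk1', hk2'⟩⟩ := hm l hl'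
          rw [update_of_ne (by omega), update_of_ne (by omega)]
          refine ⟨⟨k, hk1, fun m hm' => ?_⟩, ⟨k', hk1', fun m hm' => ?_⟩⟩
          · show _ = update t i z' m
            rw [update_of_ne (by omega)]
            exact hk2 m hm'
          · show _ = update s i z m
            rw [update_of_ne (by omega)]
            exact hk2' m hm'
        · rw [update_self, update_self]
          obtain ⟨k, hk⟩ := hz ⟨0, rfl⟩
          obtain ⟨k', hk'⟩ := hz' ⟨0, rfl⟩
          refine ⟨⟨k, by rw [hk], fun m hm' => ?_⟩, ⟨k', by rw [hk'], fun m hm' => ?_⟩⟩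
          · show _ = update t l z' m
            rw [update_of_ne (by omega), hk]
          · show _ = update s l z m
            rw [update_of_ne (by omega), hk'])
    refine ⟨b, b', by omega, by omega, k3, ?_⟩
    intro l hl
    exact k4 l (by omega)

end Pair

end Pool.Agent.Helper62K2
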