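import Pool.Agent.Helper62K2.Para

/-!
# Uncountably many fibres cannot be separated

The discrete family of the closed sets `{lim (a, b) | b}`, `a : K`, and the quotient obtained by
collapsing each of them to a point.
-/

set_option autoImplicit false

open Set Function Topology

namespace Pool.Agent.Helper62K2

variable {K Z : Type} {c : Z → ℕ → K × (ℕ → Z)}

theorem exists_inter [Nonempty Z] (hc : Surjective c) {E : Set K} (hE : ¬ E.Countable)
    {W : K → Set (Pt c)} (hWo : ∀ a ∈ E, IsOpen (W a)) (hW : ∀ a ∈ E, ∀ b, Pt.lim (a, b) ∈ W a) :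
    ∃ a ∈ E, ∃ a' ∈ E, a ≠ a' ∧ (W a ∩ W a').Nonempty := by
  classical
  have hEne : E.Nonempty := by
    rw [nonempty_iff_ne_empty]
    rintro rfl
    exact hE countable_empty
  obtain ⟨a₀, ha₀⟩ := hEne
  have : Nonempty K := ⟨a₀⟩
  let s0 : ℕ → Z := fun _ => Classical.arbitrary Z
  have h0 : ∀ (a : E) (b : ℕ → Z), ∃ n, ∃ H : Set (CO K Z), H.Finite ∧
      Nb c n H ((a : K), b) ⊆ W a := fun a b => hWo a a.2 _ (hW a a.2 b)
  choose nb Hs hHf hHW using h0
  let h : E → (ℕ → Z) → Finset (CO K Z × Bool) := fun a b =>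
    (hHf a b).toFinset.image (fun A => (A, decide (((a : K), b) ∈ A.1)))
  have hmem : ∀ (a : E) (b : ℕ → Z) (A : CO K Z) (x : Bool), (A, x) ∈ h a b ↔
      A ∈ Hs a b ∧ x = decide (((a : K), b) ∈ A.1) := by
    intro a b A x
    simp only [h, Finset.mem_image, Finite.mem_toFinset, Prod.mk.injEq]
    constructor
    · rintro ⟨A', hA', rfl, rfl⟩
      exact ⟨hA', rfl⟩
    · rintro ⟨hA, rfl⟩
      exact ⟨A, hA, rfl, rfl⟩
  have hfun : ∀ (a : E) (b : ℕ → Z), Comp (h a b) (h a b) := by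
    intro a b A x y hx hy
    rw [((hmem a b A x).1 hx).2, ((hmem a b A y).1 hy).2]
  have hext : ∀ a : E, ∃ n r, Ext c (nb a) (h a) n 0 s0 r := fun a => exists_ext hc s0
  choose N r hNr using hext
  let B := BigNotion.uncountable E
  have hBt : B.big (fun a => ∃ n : ℕ, N a = n) := by
    intro hcount
    apply hE
    have h1 : {a : E | ∃ n : ℕ, N a = n} = univ := by
      ext a
      simp
    rw [h1] at hcount
    have h2 := hcount.image (Subtype.val : E → K)
    rwa [image_univ, Subtype.range_coe] at h2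
  obtain ⟨n, hn⟩ := B.cunion hBt
  obtain ⟨r0, hr0⟩ := B.root r hn
  obtain ⟨a, han, har, _⟩ := B.exists_of_big (hr0 ∅)
  have h3 : B.big (fun a' : E => (N a' = n ∧ r0 ⊆ r a' ∧ r a' ∩ dbl (r a) ⊆ r0 ∧ a' ≠ a) ∨
      a' = a) := by
    refine B.mono ?_ (hr0 (dbl (r a)))
    rintro a' ⟨h1, h2, h3⟩
    by_cases h4 : a' = a
    · exact Or.inr h4
    · exact Or.inl ⟨h1, h2, h3, h4⟩
  have h4 : B.big (fun a' : E => N a' = n ∧ r0 ⊆ r a' ∧ r a' ∩ dbl (r a) ⊆ r0 ∧ a' ≠ a) := by
    rcases B.or h3 with h5 | h5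
    · exact h5
    · exact absurd (countable_singleton a) h5
  obtain ⟨a', han', _, har', hne⟩ := B.exists_of_big h4
  obtain ⟨b₁, hb₁⟩ := (hNr a).exists_sub
  have hcomp : Comp (r a) (r a') := by
    intro A x y hx hy
    have h5 : (A, y) ∈ r0 := har' (Finset.mem_inter.2 ⟨hy, mem_dbl hx y⟩)
    exact hfun a b₁ A x y (hb₁ hx) (hb₁ (har h5))
  have hE1 := hNr a
  have hE2 := hNr a'
  rw [han] at hE1
  rw [han'] at hE2
  obtain ⟨b, b', k1, k2, k3, k4⟩ := exists_pair (α := (a : K)) (β := (a' : K)) n 0 s0 s0 (r a)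
    (r a') hE1 hE2 hcomp (fun l hl => absurd hl (Nat.not_lt_zero l))
  rw [zero_add] at k1 k2 k4
  let p : Iso c := ⟨n, ((a : K), b), ((a' : K), b'),
    {A | (A, true) ∈ h a b ∨ (A, true) ∈ h a' b'}, k4⟩
  refine ⟨a, a.2, a', a'.2, fun h5 => hne (Subtype.ext h5.symm), Pt.iso p, ?_, ?_⟩
  · apply hHW a b
    rw [k1]
    refine ⟨Or.inl (Eqv.refl _ _), le_refl _, fun A hA => ?_⟩
    have hA' : (A, decide (((a : K), b) ∈ A.1)) ∈ h a b := (hmem a b A _).2 ⟨hA, rfl⟩
    constructor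
    · rintro (h5 | h5)
      · have := ((hmem a b A _).1 h5).2
        exact of_decide_eq_true this.symm
      · have := k3 A _ _ hA' h5
        exact of_decide_eq_true this
    · intro h5
      left
      rw [decide_eq_true h5] at hA'
      exact hA'
  · apply hHW a' b'
    rw [k2]
    refine ⟨Or.inr (Eqv.refl _ _), le_refl _, fun A hA => ?_⟩
    have hA' : (A, decide (((a' : K), b') ∈ A.1)) ∈ h a' b' := (hmem a' b' A _).2 ⟨hA, rfl⟩
    constructor
    · rintro (h5 | h5)
      · have := k3 A _ _ h5 hA'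
        exact of_decide_eq_true this.symm
      · have := ((hmem a' b' A _).1 h5).2
        exact of_decide_eq_true this.symm
    · intro h5
      right
      rw [decide_eq_true h5] at hA'
      exact hA'

/-! ### The quotient -/

/-- The points of the quotient. -/
inductive Qt (c : Z → ℕ → K × (ℕ → Z)) : Type
  | pt (a : K) : Qt c
  | iso (p : Iso c) : Qt c

/-- The quotient map. -/
def proj : Pt c → Qt c
  | .lim d => .pt d.1
  | .iso p => .iso p

instance : TopologicalSpace (Qt c) := TopologicalSpace.coinduced proj inferInstance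

theorem continuous_proj : Continuous (proj : Pt c → Qt c) := continuous_coinduced_rng

theorem isOpen_Qt {S : Set (Qt c)} : IsOpen S ↔ IsOpen (proj ⁻¹' S : Set (Pt c)) := Iff.rfl

theorem surjective_proj [Nonempty Z] : Surjective (proj : Pt c → Qt c) := by
  rintro (a | p)
  · exact ⟨Pt.lim (a, fun _ => Classical.arbitrary Z), rfl⟩
  · exact ⟨Pt.iso p, rfl⟩

theorem isClosedMap_proj : IsClosedMap (proj : Pt c → Qt c) := by
  intro C hC
  rw [← isOpen_compl_iff, isOpen_Qt]
  intro d hd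
  have h1 : Pt.lim d ∈ Cᶜ := fun h => hd ⟨_, h, rfl⟩
  obtain ⟨n, H, hH, h2⟩ := hC.isOpen_compl d h1
  refine ⟨n, H, hH, ?_⟩
  rintro (d' | p) hq
  · rintro ⟨q, hqC, hq'⟩
    apply hd
    refine ⟨q, hqC, ?_⟩
    rw [hq']
    show Qt.pt d'.1 = Qt.pt d.1
    rw [hq.1.1]
  · rintro ⟨q, hqC, hq'⟩
    rcases q with e | p'
    · simp [proj] at hq'
    · have h3 : p' = p := by simpa [proj] using hq'
      subst h3
      exact h2 hq hqC

instance [Nonempty Z] : T1Space (Qt c) := by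
  refine ⟨fun q => ?_⟩
  obtain ⟨x, rfl⟩ := surjective_proj q
  have := isClosedMap_proj (c := c) {x} isClosed_singleton
  rwa [image_singleton] at this

instance [Nonempty Z] : NormalSpace (Qt c) := by
  refine ⟨fun C C' hC hC' hdisj => ?_⟩
  obtain ⟨U, U', hU, hU', h1, h2, h3⟩ := normal_separation (hC.preimage continuous_proj)
    (hC'.preimage continuous_proj) (hdisj.preimage (proj : Pt c → Qt c))
  have hcore : ∀ {G : Set (Pt c)}, IsOpen G → IsOpen {y : Qt c | proj ⁻¹' {y} ⊆ G} := by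
    intro G hG
    have h : {y : Qt c | proj ⁻¹' {y} ⊆ G} = (proj '' Gᶜ)ᶜ := by
      ext y
      simp only [mem_ofPred_eq, mem_compl_iff, mem_image, not_exists, not_and]
      constructor
      · intro h x hx hxy
        exact hx (h hxy)
      · intro h x hx
        by_contra hxG
        exact h x hxG hx
    rw [h]
    exact (isClosedMap_proj _ hG.isClosed_compl).isOpen_compl
  refine ⟨{y | proj ⁻¹' {y} ⊆ U}, {y | proj ⁻¹' {y} ⊆ U'}, hcore hU, hcore hU', ?_, ?_, ?_⟩
  · intro y hy x hx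
    apply h1
    show proj x ∈ C
    rw [mem_singleton_iff.1 hx]
    exact hy
  · intro y hy x hx
    apply h2
    show proj x ∈ C'
    rw [mem_singleton_iff.1 hx]
    exact hy
  · rw [disjoint_left]
    intro y hy hy'
    obtain ⟨x, rfl⟩ := surjective_proj y
    exact disjoint_left.1 h3 (hy rfl) (hy' rfl)

theorem not_PL_Qt [Nonempty Z] [Uncountable K] (hc : Surjective c) : ¬ PL (Qt c) := by
  classical
  intro hPL
  let U : K → Set (Qt c) := fun a => {q | ∀ a', q = Qt.pt a' → a' = a}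
  have hUo : ∀ a, IsOpen (U a) := by
    intro a
    rw [isOpen_Qt]
    intro d hd
    refine ⟨0, ∅, finite_empty, ?_⟩
    rintro (d' | p) hq a' ha'
    · have h1 : d'.1 = a' := by simpa [proj] using ha'
      rw [← h1, ← hq.1.1]
      exact hd d.1 rfl
    · simp [proj] at ha'
  obtain ⟨𝒱, hVo, hVc, hVU, hVl⟩ := hPL (range U) (by rintro _ ⟨a, rfl⟩; exact hUo a) (by
    refine eq_univ_of_forall fun q => ?_
    rcases q with a | p
    · refine mem_sUnion.2 ⟨U a, ⟨a, rfl⟩, ?_⟩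
      intro a' ha'
      have : a = a' := by simpa using ha'
      exact this.symm
    · refine mem_sUnion.2 ⟨U (Classical.arbitrary K), ⟨_, rfl⟩, ?_⟩
      intro a' ha'
      simp at ha')
  have hV : ∀ a : K, ∃ V ∈ 𝒱, Qt.pt a ∈ V := fun a =>
    mem_sUnion.1 (hVc ▸ mem_univ (Qt.pt a : Qt c) : (Qt.pt a : Qt c) ∈ ⋃₀ 𝒱)
  choose V hV𝒱 haV using hV
  have hVinj : ∀ a a', Qt.pt a' ∈ V a → a' = a := by
    intro a a' h
    obtain ⟨_, ⟨a₁, rfl⟩, h1⟩ := hVU (V a) (hV𝒱 a)
    exact (h1 h a' rfl).trans (h1 (haV a) a rfl).symm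
  have hN : ∀ a : K, ∃ N : Set (Qt c), IsOpen N ∧ Qt.pt a ∈ N ∧
      {V ∈ 𝒱 | (V ∩ N).Nonempty}.Countable := by
    intro a
    obtain ⟨N, hN, hNc⟩ := hVl (Qt.pt a)
    obtain ⟨N', h1, h2, h3⟩ := mem_nhds_iff.1 hN
    refine ⟨N', h2, h3, hNc.mono ?_⟩
    rintro V ⟨hV1, hV2⟩
    exact ⟨hV1, hV2.mono (inter_subset_inter_right _ h1)⟩
  choose N hNo haN hNc using hN
  let W : K → Set (Pt c) := fun a => proj ⁻¹' (N a ∩ V a)
  have hWo : ∀ a, IsOpen (W a) := fun a =>
    ((hNo a).inter (hVo _ (hV𝒱 a))).preimage continuous_proj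
  have hWm : ∀ a b, Pt.lim (a, b) ∈ W a := fun a b => ⟨haN a, haV a⟩
  -- each `W a` meets only countably many `W a'`
  have hdeg : ∀ a, {a' | (W a' ∩ W a).Nonempty}.Countable := by
    intro a
    have h1 : {a' | (W a' ∩ W a).Nonempty} ⊆ V ⁻¹' {V ∈ 𝒱 | (V ∩ N a).Nonempty} := by
      rintro a' ⟨q, hq', hq⟩
      exact ⟨hV𝒱 a', proj q, hq'.2, hq.1⟩
    refine ((hNc a).preimage_of_injOn ?_).mono h1
    intro a₁ _ a₂ _ h
    apply hVinj a₂ a₁
    have h2 : V a₁ = V a₂ := h
    rw [← h2]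
    exact haV a₁
  obtain ⟨E, hEmax⟩ := zorn_subset {E : Set K | E.PairwiseDisjoint W} (by
    intro C hC hchain
    exact ⟨⋃₀ C, (pairwiseDisjoint_sUnion hchain.directedOn).2 fun s hs => hC hs,
      fun s hs => subset_sUnion_of_mem hs⟩)
  have hEc : E.Countable := by
    by_contra hE
    obtain ⟨a, ha, a', ha', hne, h1⟩ := exists_inter hc hE (fun a _ => hWo a)
      (fun a _ b => hWm a b)
    exact (nonempty_iff_ne_empty.1 h1) (disjoint_iff_inter_eq_empty.1 (hEmax.prop ha ha' hne))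
  have hall : (univ : Set K) ⊆ E ∪ ⋃ a ∈ E, {a' | (W a' ∩ W a).Nonempty} := by
    intro a' _
    by_contra hcon
    have h1 : a' ∉ E := fun h => hcon (Or.inl h)
    have h2 : ∀ a ∈ E, ¬ (W a' ∩ W a).Nonempty := fun a ha h =>
      hcon (Or.inr (mem_iUnion₂.2 ⟨a, ha, h⟩))
    have h3 : (insert a' E).PairwiseDisjoint W := by
      refine hEmax.prop.insert ?_
      intro a ha _
      exact disjoint_iff_inter_eq_empty.2 (not_nonempty_iff_eq_empty.1 (h2 a ha))
    exact h1 (hEmax.le_of_ge h3 (subset_insert a' E) (mem_insert a' E))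
  have hcount : (univ : Set K).Countable :=
    (hEc.union (hEc.biUnion fun a _ => hdeg a)).mono hall
  exact not_countable_univ hcount

/-- A surjection as needed exists when `K` and `Z` are the set of subsets of `ℕ`. -/
theorem exists_surj : ∃ c : Set ℕ → ℕ → Set ℕ × (ℕ → Set ℕ), Surjective c := by
  have h1 : Cardinal.mk (ℕ → Set ℕ × (ℕ → Set ℕ)) = Cardinal.mk (Set ℕ) := by
    have h2 : Cardinal.mk (Set ℕ) = Cardinal.continuum := by simp
    simp [h2, Cardinal.continuum_mul_self, Cardinal.continuum_power_aleph0]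
  obtain ⟨e⟩ := Cardinal.eq.1 h1
  exact ⟨e.symm, e.symm.surjective⟩

end Pool.Agent.Helper62K2
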