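import Pool.Agent.Helper62K2.Root

/-!
# The space

The points are the limit points `lim d`, where `d = (a, b)` with `a : K` and `b : ℕ → Z`, and
isolated points `iso p`.  An isolated point is near at most two limit points.
-/

set_option autoImplicit false

open Set Function Topology

namespace Pool.Agent.Helper62K2

variable {K Z : Type}

/-- Equality of two limit points up to level `n`. -/
def Eqv (n : ℕ) (d d' : K × (ℕ → Z)) : Prop := d.1 = d'.1 ∧ ∀ l < n, d.2 l = d'.2 l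

theorem Eqv.refl (n : ℕ) (d : K × (ℕ → Z)) : Eqv n d d := ⟨rfl, fun _ _ => rfl⟩

theorem Eqv.symm {n : ℕ} {d d' : K × (ℕ → Z)} (h : Eqv n d d') : Eqv n d' d :=
  ⟨h.1.symm, fun l hl => (h.2 l hl).symm⟩

theorem Eqv.trans {n : ℕ} {d d' d'' : K × (ℕ → Z)} (h : Eqv n d d') (h' : Eqv n d' d'') :
    Eqv n d d'' :=
  ⟨h.1.trans h'.1, fun l hl => (h.2 l hl).trans (h'.2 l hl)⟩

theorem Eqv.mono {n m : ℕ} (hmn : m ≤ n) {d d' : K × (ℕ → Z)} (h : Eqv n d d') : Eqv m d d' :=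
  ⟨h.1, fun l hl => h.2 l (by omega)⟩

theorem eq_of_eqv {d d' : K × (ℕ → Z)} (h : ∀ n, Eqv n d d') : d = d' :=
  Prod.ext (h 0).1 (funext fun l => (h (l + 1)).2 l (by omega))

/-- The sets of limit points that are decided locally (the clopen ones). -/
def Loc (A : Set (K × (ℕ → Z))) : Prop := ∀ d, ∃ n, ∀ d', Eqv n d d' → (d' ∈ A ↔ d ∈ A)

variable (K Z) in
/-- The locally decided sets of limit points. -/
abbrev CO : Type := {A : Set (K × (ℕ → Z)) // Loc A}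

/-- The set of limit points equal to `d` up to level `n`. -/
def blk (n : ℕ) (d : K × (ℕ → Z)) : CO K Z :=
  ⟨{d' | Eqv n d d'}, fun e => ⟨n, fun d' h => ⟨fun h' => h'.trans h.symm, fun h' => h'.trans h⟩⟩⟩

/-- The set of limit points with first coordinate `a`. -/
def fib (a : K) : CO K Z :=
  ⟨{d | d.1 = a}, fun e => ⟨0, fun d' h => by
    show d'.1 = a ↔ e.1 = a
    rw [h.1]⟩⟩

/-- The isolated points. -/
structure Iso (c : Z → ℕ → K × (ℕ → Z)) : Type where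
  n : ℕ
  x : K × (ℕ → Z)
  y : K × (ℕ → Z)
  Φ : Set (CO K Z)
  ment : ∀ l < n, Ment c l (x.2 l) y ∧ Ment c l (y.2 l) x

/-- The points of the space. -/
inductive Pt (c : Z → ℕ → K × (ℕ → Z)) : Type
  | lim (d : K × (ℕ → Z)) : Pt c
  | iso (p : Iso c) : Pt c

variable {c : Z → ℕ → K × (ℕ → Z)}

/-- The basic neighbourhoods of limit points. -/
def Nb (c : Z → ℕ → K × (ℕ → Z)) (n : ℕ) (H : Set (CO K Z)) (d : K × (ℕ → Z)) : Set (Pt c) :=
  {q | match q with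
    | .lim d' => Eqv n d d' ∧ ∀ A ∈ H, (d' ∈ A.1 ↔ d ∈ A.1)
    | .iso p => (Eqv n d p.x ∨ Eqv n d p.y) ∧ n ≤ p.n ∧ ∀ A ∈ H, (A ∈ p.Φ ↔ d ∈ A.1)}

theorem lim_mem_Nb {n : ℕ} {H : Set (CO K Z)} {d d' : K × (ℕ → Z)} :
    Pt.lim d' ∈ Nb c n H d ↔ Eqv n d d' ∧ ∀ A ∈ H, (d' ∈ A.1 ↔ d ∈ A.1) := Iff.rfl

theorem iso_mem_Nb {n : ℕ} {H : Set (CO K Z)} {d : K × (ℕ → Z)} {p : Iso c} :
    Pt.iso p ∈ Nb c n H d ↔
      (Eqv n d p.x ∨ Eqv n d p.y) ∧ n ≤ p.n ∧ ∀ A ∈ H, (A ∈ p.Φ ↔ d ∈ A.1) := Iff.rfl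

theorem Nb_mono {n m : ℕ} {H H' : Set (CO K Z)} (hn : n ≤ m) (hH : H ⊆ H')
    (d : K × (ℕ → Z)) : Nb c m H' d ⊆ Nb c n H d := by
  rintro (d' | p) hq
  · exact ⟨hq.1.mono hn, fun A hA => hq.2 A (hH hA)⟩
  · exact ⟨hq.1.imp (fun h => h.mono hn) (fun h => h.mono hn), hn.trans hq.2.1,
      fun A hA => hq.2.2 A (hH hA)⟩

theorem self_mem_Nb (n : ℕ) (H : Set (CO K Z)) (d : K × (ℕ → Z)) : Pt.lim d ∈ Nb c n H d :=
  ⟨Eqv.refl n d, fun _ _ => Iff.rfl⟩

theorem Nb_sub_of_mem {n : ℕ} {H : Set (CO K Z)} {d d' : K × (ℕ → Z)}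
    (h : Pt.lim d' ∈ Nb c n H d) : Nb c n H d' ⊆ Nb c n H d := by
  rintro (d'' | p) hq
  · exact ⟨h.1.trans hq.1, fun A hA => (hq.2 A hA).trans (h.2 A hA)⟩
  · exact ⟨hq.1.imp (fun h' => h.1.trans h') (fun h' => h.1.trans h'), hq.2.1,
      fun A hA => (hq.2.2 A hA).trans (h.2 A hA)⟩

instance : TopologicalSpace (Pt c) where
  IsOpen S := ∀ d, Pt.lim d ∈ S → ∃ n, ∃ H : Set (CO K Z), H.Finite ∧ Nb c n H d ⊆ S
  isOpen_univ := fun d _ => ⟨0, ∅, finite_empty, subset_univ _⟩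
  isOpen_inter := by
    intro S T hS hT d hd
    obtain ⟨n, H, hH, h1⟩ := hS d hd.1
    obtain ⟨m, H', hH', h2⟩ := hT d hd.2
    exact ⟨max n m, H ∪ H', hH.union hH', subset_inter
      ((Nb_mono (le_max_left _ _) subset_union_left d).trans h1)
      ((Nb_mono (le_max_right _ _) subset_union_right d).trans h2)⟩
  isOpen_sUnion := by
    intro 𝒮 h𝒮 d hd
    obtain ⟨S, hS, hdS⟩ := mem_sUnion.1 hd
    obtain ⟨n, H, hH, h1⟩ := h𝒮 S hS d hdS
    exact ⟨n, H, hH, h1.trans (subset_sUnion_of_mem hS)⟩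

theorem isOpen_iff {S : Set (Pt c)} :
    IsOpen S ↔ ∀ d, Pt.lim d ∈ S → ∃ n, ∃ H : Set (CO K Z), H.Finite ∧ Nb c n H d ⊆ S := Iff.rfl

theorem isOpen_Nb (n : ℕ) {H : Set (CO K Z)} (hH : H.Finite) (d : K × (ℕ → Z)) :
    IsOpen (Nb c n H d) := fun _ hd' => ⟨n, H, hH, Nb_sub_of_mem hd'⟩

theorem isOpen_of_iso {S : Set (Pt c)} (h : ∀ d, Pt.lim d ∉ S) : IsOpen S :=
  fun d hd => absurd hd (h d)

theorem isOpen_single (p : Iso c) : IsOpen ({Pt.iso p} : Set (Pt c)) :=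
  isOpen_of_iso fun d hd => by
    have := mem_singleton_iff.1 hd
    simp at this

/-- The clopen set of the space defined by a locally decided set of limit points. -/
def hat (c : Z → ℕ → K × (ℕ → Z)) (A : CO K Z) : Set (Pt c) :=
  {q | match q with
    | .lim d => d ∈ A.1
    | .iso p => A ∈ p.Φ}

theorem isOpen_hat (A : CO K Z) : IsOpen (hat c A) := by
  intro d hd
  refine ⟨0, {A}, finite_singleton A, ?_⟩
  rintro (d' | p) hq
  · exact (hq.2 A rfl).2 hd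
  · exact (hq.2.2 A rfl).2 hd

theorem isOpen_hat_compl (A : CO K Z) : IsOpen (hat c A)ᶜ := by
  intro d hd
  refine ⟨0, {A}, finite_singleton A, ?_⟩
  rintro (d' | p) hq h
  · exact hd ((hq.2 A rfl).1 h)
  · exact hd ((hq.2.2 A rfl).1 h)

instance : T1Space (Pt c) := by
  refine ⟨fun q => ⟨?_⟩⟩
  rw [isOpen_iff]
  intro d hd
  rcases q with e | p
  · have hne : d ≠ e := by
      rintro rfl
      exact hd rfl
    have h1 : ∃ n, ¬ Eqv n d e := by
      by_contra hc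
      push Not at hc
      exact hne (eq_of_eqv hc)
    obtain ⟨n, hn⟩ := h1
    refine ⟨n, ∅, finite_empty, ?_⟩
    rintro q hq rfl
    exact hn hq.1
  · refine ⟨p.n + 1, ∅, finite_empty, ?_⟩
    rintro q hq rfl
    have := hq.2.1
    omega

section level

/-- If a property of blocks holds at some level for each point, the least such level is locally
constant. -/
theorem exists_level (R : ℕ → (K × (ℕ → Z)) → Prop) (hR : ∀ d, ∃ n, R n d)
    (hRc : ∀ n d d', Eqv n d d' → R n d → R n d') :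
    ∃ k : (K × (ℕ → Z)) → ℕ, (∀ d, R (k d) d) ∧ ∀ d d', Eqv (k d) d d' → k d' = k d := by
  classical
  refine ⟨fun d => Nat.find (hR d), fun d => Nat.find_spec (hR d), ?_⟩
  intro d d' h
  apply le_antisymm
  · exact Nat.find_min' (hR d') (hRc _ _ _ h (Nat.find_spec (hR d)))
  · by_contra hlt
    push Not at hlt
    have h1 : Eqv (Nat.find (hR d')) d' d := (h.mono hlt.le).symm
    exact Nat.find_min (hR d) hlt (hRc _ _ _ h1 (Nat.find_spec (hR d')))

end level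

/-- An open set containing a limit point contains all limit points equal to it up to some
level. -/
theorem exists_eqv_sub {U : Set (Pt c)} (hU : IsOpen U) {d : K × (ℕ → Z)} (hd : Pt.lim d ∈ U) :
    ∃ n, ∀ d', Eqv n d d' → Pt.lim d' ∈ U := by
  obtain ⟨n, H, hH, h1⟩ := hU d hd
  -- the finitely many sets in `H` are decided at some level
  have h2 : ∃ m, ∀ A ∈ H, ∀ d', Eqv m d d' → (d' ∈ A.1 ↔ d ∈ A.1) := by
    clear h1
    induction H, hH using Set.Finite.induction_on with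
    | empty => exact ⟨0, fun A hA => absurd hA (notMem_empty A)⟩
    | @insert A H _ _ ih =>
      obtain ⟨m, hm⟩ := ih
      obtain ⟨m', hm'⟩ := A.2 d
      refine ⟨max m m', ?_⟩
      rintro B (rfl | hB) d' hd'
      · exact hm' d' (hd'.mono (le_max_right _ _))
      · exact hm B hB d' (hd'.mono (le_max_left _ _))
  obtain ⟨m, hm⟩ := h2
  refine ⟨max n m, fun d' hd' => ?_⟩
  exact h1 (show Pt.lim d' ∈ Nb c n H d from ⟨hd'.mono (le_max_left _ _),
    fun A hA => hm A hA d' (hd'.mono (le_max_right _ _))⟩)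

/-- The space is normal. -/
instance : NormalSpace (Pt c) := by
  refine ⟨fun C C' hC hC' hdisj => ?_⟩
  have hopen : ∀ {C : Set (Pt c)}, IsClosed C → ∀ d, Pt.lim d ∉ C →
      ∃ n, ∀ d', Eqv n d d' → Pt.lim d' ∉ C := fun hC d hd =>
    exists_eqv_sub hC.isOpen_compl hd
  let R : ℕ → (K × (ℕ → Z)) → Prop := fun n d =>
    (∀ d', Eqv n d d' → Pt.lim d' ∉ C) ∨ (∀ d', Eqv n d d' → Pt.lim d' ∉ C')
  obtain ⟨k, hk, hkc⟩ := exists_level R (by
    intro d
    by_cases hd : Pt.lim d ∈ C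
    · obtain ⟨n, hn⟩ := hopen hC' d (fun h => disjoint_left.1 hdisj hd h)
      exact ⟨n, Or.inr hn⟩
    · obtain ⟨n, hn⟩ := hopen hC d hd
      exact ⟨n, Or.inl hn⟩) (by
    rintro n d d' h (h1 | h1)
    · exact Or.inl fun d'' h2 => h1 d'' (h.trans h2)
    · exact Or.inr fun d'' h2 => h1 d'' (h.trans h2))
  let A : CO K Z := ⟨{d | ∃ d', Eqv (k d) d d' ∧ Pt.lim d' ∈ C}, fun d => ⟨k d, fun d' h => by
    have h1 := hkc d d' h
    constructor
    · rintro ⟨e, he, heC⟩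
      rw [h1] at he
      exact ⟨e, h.trans he, heC⟩
    · rintro ⟨e, he, heC⟩
      refine ⟨e, ?_, heC⟩
      rw [h1]
      exact h.symm.trans he⟩⟩
  have hA1 : ∀ d, Pt.lim d ∈ C → d ∈ A.1 := fun d hd => ⟨d, Eqv.refl _ _, hd⟩
  have hA2 : ∀ d, Pt.lim d ∈ C' → d ∉ A.1 := by
    rintro d hd ⟨d', h1, h2⟩
    rcases hk d with h | h
    · exact h d' h1 h2
    · exact h d (Eqv.refl _ _) hd
  have hisoOpen : ∀ S : Set (Pt c), IsOpen (S ∩ range Pt.iso) := fun S =>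
    isOpen_of_iso (by
      rintro d ⟨_, p, hp⟩
      simp at hp)
  refine ⟨(hat c A \ C') ∪ (C ∩ range Pt.iso), ((hat c A)ᶜ \ C) ∪ (C' ∩ range Pt.iso),
    ((isOpen_hat A).sdiff hC').union (hisoOpen C),
    ((isOpen_hat_compl A).sdiff hC).union (hisoOpen C'), ?_, ?_, ?_⟩
  · rintro (d | p) hq
    · exact Or.inl ⟨hA1 d hq, fun h => disjoint_left.1 hdisj hq h⟩
    · exact Or.inr ⟨hq, p, rfl⟩
  · rintro (d | p) hq
    · exact Or.inl ⟨hA2 d hq, fun h => disjoint_left.1 hdisj h hq⟩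
    · exact Or.inr ⟨hq, p, rfl⟩
  · rw [disjoint_left]
    rintro q (⟨h1, h2⟩ | ⟨h1, h2⟩) (⟨h3, h4⟩ | ⟨h3, h4⟩)
    · exact h3 h1
    · exact h2 h3
    · exact h4 h1
    · exact disjoint_left.1 hdisj h1 h3

end Pool.Agent.Helper62K2
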